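import Mathlib

/-!
# Project TPair (MP_98b56a_co): families with a live pair

`f` is an upset of subsets of a finite set (`live sets`), `(L)`: every set whose live subsets have
no common point contains two disjoint live sets.  THEOREM: if there are no three disjoint live sets
and `{x, y}` is live, then there is a set with two elements which meets all live sets, or a set with
five elements which every live set meets in at least two elements.
-/

set_option autoImplicit false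

namespace Pool.Agent.TPair

open Finset

variable {V : Type} [DecidableEq V]

/-- Upset with property `(L)`, without three disjoint members. -/
structure LF (f : Finset V → Prop) : Prop where
  mono : ∀ A B : Finset V, A ⊆ B → f A → f B
  split : ∀ U : Finset V, f U → (∀ x ∈ U, f (U.erase x)) →
    ∃ A B : Finset V, f A ∧ f B ∧ Disjoint A B ∧ A ⊆ U ∧ B ⊆ U
  np : ∀ A B C : Finset V, f A → f B → f C → Disjoint A B → Disjoint A C → Disjoint B C → False
  bot : ¬ f ∅

variable {f : Finset V → Prop}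

/-- A live set contains a minimal live set. -/
lemma min_sub (A : Finset V) (hA : f A) : ∃ B ⊆ A, f B ∧ ∀ x ∈ B, ¬ f (B.erase x) := by
  classical
  induction A using Finset.strongInduction with
  | H A ih =>
    by_cases h : ∃ x ∈ A, f (A.erase x)
    · obtain ⟨x, hx, hf⟩ := h
      obtain ⟨B, hB, h1, h2⟩ := ih _ (Finset.erase_ssubset hx) hf
      exact ⟨B, hB.trans (Finset.erase_subset _ _), h1, h2⟩
    · push Not at h
      exact ⟨A, Subset.refl _, hA, h⟩

/-- A proper subset of a minimal live set is not live. -/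
lemma LF.min_eq (h : LF f) {A B : Finset V} (hB : ∀ x ∈ B, ¬ f (B.erase x)) (hAB : A ⊆ B)
    (hA : f A) : A = B := by
  by_contra hne
  obtain ⟨x, hxB, hxA⟩ := Finset.exists_of_ssubset (hAB.ssubset_of_ne hne)
  exact hB x hxB (h.mono A _ (Finset.subset_erase.2 ⟨hAB, hxA⟩) hA)

/-- Kernel: if a live set `D` is disjoint from all the live sets of a family inside `U` then some
point of `U` is in all live subsets of `U`. -/
lemma LF.ker (h : LF f) [Fintype V] {D : Finset V} (hD : f D) (hDc : f Dᶜ) :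
    ∃ v ∉ D, ∀ E, f E → Disjoint E D → v ∈ E := by
  by_contra hcon
  push Not at hcon
  have h1 : ∀ x ∈ Dᶜ, f (Dᶜ.erase x) := by
    intro x hx
    obtain ⟨E, hE, hED, hxE⟩ := hcon x (Finset.mem_compl.1 hx)
    refine h.mono E _ ?_ hE
    rw [Finset.subset_erase]
    exact ⟨fun e he => Finset.mem_compl.2 fun h' => (Finset.disjoint_left.1 hED) he h', hxE⟩
  obtain ⟨A, B, hA, hB, hAB, hAU, hBU⟩ := h.split _ hDc h1
  have hdis : ∀ E : Finset V, E ⊆ Dᶜ → Disjoint D E := fun E hE => by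
    rw [Finset.disjoint_left]
    intro e he h'
    exact (Finset.mem_compl.1 (hE h')) he
  exact h.np D A B hD hA hB (hdis A hAU) (hdis B hBU) hAB

/-- The situation: `{x, y}` is live, all live sets avoiding `x` and `y` contain `a`, no set with two
elements meets all live sets. -/
structure Cfg (f : Finset V → Prop) (x y a : V) : Prop where
  xy : x ≠ y
  ax : a ≠ x
  ay : a ≠ y
  live : f {x, y}
  ker : ∀ E, f E → x ∉ E → y ∉ E → a ∈ E
  nc : ∀ u v : V, ∃ E, f E ∧ u ∉ E ∧ v ∉ E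

lemma Cfg.symm {x y a : V} (c : Cfg f x y a) : Cfg f y x a :=
  ⟨c.xy.symm, c.ay, c.ax, by rw [Finset.pair_comm]; exact c.live, fun E h h1 h2 => c.ker E h h2 h1,
    c.nc⟩

/-- Minimal live set which contains `x` and avoids `y` and `a`. -/
def MS (f : Finset V → Prop) (x y a : V) (A : Finset V) : Prop :=
  f A ∧ (∀ v ∈ A, ¬ f (A.erase v)) ∧ x ∈ A ∧ y ∉ A ∧ a ∉ A

lemma Cfg.exMS {x y a : V} (c : Cfg f x y a) {E : Finset V} (hE : f E) (hy : y ∉ E) (ha : a ∉ E) :
    ∃ A ⊆ E, MS f x y a A := by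
  obtain ⟨A, hA, h1, h2⟩ := min_sub E hE
  refine ⟨A, hA, h1, h2, ?_, fun h => hy (hA h), fun h => ha (hA h)⟩
  by_contra hx
  exact ha (hA (c.ker A h1 hx fun h => hy (hA h)))

/-- Two disjoint live sets avoiding `a`: one contains `x`, the other one `y`. -/
lemma Cfg.sep {x y a : V} (c : Cfg f x y a) {A B : Finset V} (hA : f A) (hB : f B)
    (hAB : Disjoint A B) (haA : a ∉ A) (haB : a ∉ B) :
    (x ∈ A ∧ y ∉ A ∧ y ∈ B ∧ x ∉ B) ∨ (x ∈ B ∧ y ∉ B ∧ y ∈ A ∧ x ∉ A) := by
  have h1 := c.ker A hA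
  have h2 := c.ker B hB
  have h3 : x ∈ A → x ∉ B := fun h => (Finset.disjoint_left.1 hAB) h
  have h4 : y ∈ A → y ∉ B := fun h => (Finset.disjoint_left.1 hAB) h
  tauto

lemma Cfg.desc (h : LF f) {x y a : V} (c : Cfg f x y a) {A : Finset V} (hA : MS f x y a A) :
    ∀ (n : ℕ) (B : Finset V), (B \ A).card = n → f B → x ∉ B → a ∉ B →
      ∃ B', f B' ∧ B' ⊆ B \ A := by
  intro n
  induction n using Nat.strong_induction_on with
  | _ n ih =>
    intro B hn hB hx ha
    obtain ⟨hfA, hmin, hxA, hyA, haA⟩ := hA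
    have hyB : y ∈ B := by
      by_contra hy
      exact ha (c.ker B hB hx hy)
    have haU : a ∉ A ∪ B := by
      rw [Finset.mem_union]; tauto
    have hs : ∀ v ∈ A ∪ B, f ((A ∪ B).erase v) := by
      intro v hv
      by_cases hvx : v = x
      · refine h.mono B _ ?_ hB
        rw [Finset.subset_erase]
        exact ⟨Finset.subset_union_right, hvx ▸ hx⟩
      by_cases hvy : v = y
      · refine h.mono A _ ?_ hfA
        rw [Finset.subset_erase]
        exact ⟨Finset.subset_union_left, hvy ▸ hyA⟩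
      · refine h.mono {x, y} _ ?_ c.live
        intro u hu
        rw [Finset.mem_insert, Finset.mem_singleton] at hu
        rw [Finset.mem_erase, Finset.mem_union]
        rcases hu with rfl | rfl
        · exact ⟨fun h' => hvx h'.symm, Or.inl hxA⟩
        · exact ⟨fun h' => hvy h'.symm, Or.inr hyB⟩
    obtain ⟨A₁, B₁, hA₁, hB₁, hd, hAU, hBU⟩ := h.split (A ∪ B)
      (h.mono A _ Finset.subset_union_left hfA) hs
    have key : ∀ A' B' : Finset V, f A' → f B' → Disjoint A' B' → A' ⊆ A ∪ B → B' ⊆ A ∪ B →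
        x ∉ B' → ∃ B'', f B'' ∧ B'' ⊆ B \ A := by
      intro A' B' hA' hB' hd' hAU' hBU' hxB'
      have haB' : a ∉ B' := fun h' => haU (hBU' h')
      have hsub : B' \ A ⊆ B \ A := by
        intro u hu
        rw [Finset.mem_sdiff] at hu ⊢
        have := hBU' hu.1
        rw [Finset.mem_union] at this
        exact ⟨this.resolve_left hu.2, hu.2⟩
      by_cases heq : B' \ A = B \ A
      · have hA'A : A' ⊆ A := by
          intro u hu
          by_contra hc
          have h1 := hAU' hu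
          rw [Finset.mem_union] at h1
          have h2 : u ∈ B \ A := Finset.mem_sdiff.2 ⟨h1.resolve_left hc, hc⟩
          rw [← heq, Finset.mem_sdiff] at h2
          exact (Finset.disjoint_left.1 hd') hu h2.1
        have h3 : A' = A := h.min_eq hmin hA'A hA'
        refine ⟨B', hB', fun u hu => ?_⟩
        have hnA : u ∉ A := by
          intro h'
          rw [← h3] at h'
          exact (Finset.disjoint_left.1 hd') h' hu
        have h1 := hBU' hu
        rw [Finset.mem_union] at h1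
        exact Finset.mem_sdiff.2 ⟨h1.resolve_left hnA, hnA⟩
      · have hlt : (B' \ A).card < n := by
          rw [← hn]
          exact Finset.card_lt_card (hsub.ssubset_of_ne heq)
        obtain ⟨B'', h1, h2⟩ := ih _ hlt B' rfl hB' hxB' haB'
        exact ⟨B'', h1, h2.trans hsub⟩
    rcases c.sep hA₁ hB₁ hd (fun h' => haU (hAU h')) (fun h' => haU (hBU h')) with h1 | h1
    · exact key A₁ B₁ hA₁ hB₁ hd hAU hBU h1.2.2.2
    · exact key B₁ A₁ hB₁ hA₁ hd.symm hBU hAU h1.2.2.2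

/-- DISJOINT SUPPORTS. -/
lemma Cfg.disj (h : LF f) {x y a : V} (c : Cfg f x y a) {A B : Finset V} (hA : MS f x y a A)
    (hB : MS f y x a B) : Disjoint A B := by
  obtain ⟨B', h1, h2⟩ := c.desc h hA _ B rfl hB.1 hB.2.2.2.1 hB.2.2.2.2
  have h3 : B' = B := h.min_eq hB.2.1 (h2.trans Finset.sdiff_subset) h1
  rw [h3] at h2
  rw [Finset.disjoint_right]
  intro u hu
  exact (Finset.mem_sdiff.1 (h2 hu)).2

/-- `v` is in all live sets which avoid `y` and `a`. -/
def Kp (f : Finset V → Prop) (y a v : V) : Prop := ∀ E, f E → y ∉ E → a ∉ E → v ∈ E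

lemma Cfg.kp (h : LF f) [Fintype V] {x y a : V} (c : Cfg f x y a) {Y Z : Finset V}
    (hY : MS f y x a Y) (hZ : f Z) (hx : x ∉ Z) (hd : Disjoint Y Z) :
    ∃ v, v ∉ Y ∧ v ∈ Z ∧ v ≠ x ∧ Kp f y a v := by
  have hYc : f Yᶜ := h.mono Z _ (fun u hu => Finset.mem_compl.2 fun h' =>
    (Finset.disjoint_left.1 hd) h' hu) hZ
  obtain ⟨v, hv, hker⟩ := h.ker hY.1 hYc
  have hvZ : v ∈ Z := hker Z hZ hd.symm
  refine ⟨v, hv, hvZ, fun h' => hx (h' ▸ hvZ), fun E hE hyE haE => ?_⟩
  obtain ⟨A, hAE, hA⟩ := c.exMS hE hyE haE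
  exact hAE (hker A hA.1 (c.disj h hA hY))

/-- Inside a set `U` which avoids `x` and has no common point there are a minimal live set through
`y` and a live set through `a` which are disjoint. -/
lemma Cfg.two (h : LF f) {x y a : V} (c : Cfg f x y a) {U : Finset V} (hx : x ∉ U)
    (hU : f U) (hs : ∀ v ∈ U, f (U.erase v)) :
    ∃ Y Z, MS f y x a Y ∧ f Z ∧ x ∉ Z ∧ y ∉ Z ∧ a ∈ Z ∧ Disjoint Y Z ∧ Y ⊆ U ∧ Z ⊆ U := by
  obtain ⟨A, B, hA, hB, hd, hAU, hBU⟩ := h.split U hU hs
  have hxA : x ∉ A := fun h' => hx (hAU h')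
  have hxB : x ∉ B := fun h' => hx (hBU h')
  have key : ∀ A B : Finset V, f A → f B → Disjoint A B → A ⊆ U → B ⊆ U → x ∉ A → x ∉ B →
      y ∉ B → ∃ Y Z, MS f y x a Y ∧ f Z ∧ x ∉ Z ∧ y ∉ Z ∧ a ∈ Z ∧ Disjoint Y Z ∧ Y ⊆ U ∧
        Z ⊆ U := by
    intro A B hA hB hd hAU hBU hxA hxB hyB
    have haB : a ∈ B := c.ker B hB hxB hyB
    have haA : a ∉ A := fun h' => (Finset.disjoint_left.1 hd) h' haB
    obtain ⟨Y, hYA, hY⟩ := c.symm.exMS hA hxA haA
    exact ⟨Y, B, hY, hB, hxB, hyB, haB, hd.mono_left hYA, hYA.trans hAU, hBU⟩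
  by_cases hyB : y ∈ B
  · have hyA : y ∉ A := fun h' => (Finset.disjoint_left.1 hd) h' hyB
    exact key B A hB hA hd.symm hBU hAU hxB hxA hyA
  · exact key A B hA hB hd hAU hBU hxA hxB hyB

/-- THEOREM (certificate), first form. -/
lemma Cfg.main (h : LF f) [Fintype V] {x y a : V} (c : Cfg f x y a) :
    ∃ W : Finset V, W.card = 5 ∧ ∀ E, f E → 2 ≤ (E ∩ W).card := by
  classical
  have hnc1 : ∀ u : V, f ({u} : Finset V)ᶜ := by
    intro u
    obtain ⟨E, hE, h1, -⟩ := c.nc u u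
    refine h.mono E _ (fun e he => ?_) hE
    rw [Finset.mem_compl, Finset.mem_singleton]
    rintro rfl
    exact h1 he
  have hnc2 : ∀ u v : V, f (({u} : Finset V)ᶜ.erase v) := by
    intro u v
    obtain ⟨E, hE, h1, h2⟩ := c.nc u v
    refine h.mono E _ (fun e he => ?_) hE
    rw [Finset.mem_erase, Finset.mem_compl, Finset.mem_singleton]
    exact ⟨fun h' => h2 (h' ▸ he), fun h' => h1 (h' ▸ he)⟩
  -- step 2 on both sides
  obtain ⟨Y₀, Z₀, hY₀, hZ₀, hxZ₀, hyZ₀, haZ₀, hd₀, -, -⟩ := c.two h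
    (U := ({x} : Finset V)ᶜ) (by simp) (hnc1 x) (fun v _ => hnc2 x v)
  obtain ⟨X₀, Z₁, hX₀, hZ₁, hyZ₁, hxZ₁, haZ₁, hd₁, -, -⟩ := c.symm.two h
    (U := ({y} : Finset V)ᶜ) (by simp) (hnc1 y) (fun v _ => hnc2 y v)
  set kx : Finset V := Finset.univ.filter fun v => v ≠ x ∧ Kp f y a v with hkx
  have hkxX : ∀ X, MS f x y a X → ∀ v ∈ kx, v ∈ X := by
    intro X hX v hv
    exact (Finset.mem_filter.1 hv).2.2 X hX.1 hX.2.2.2.1 hX.2.2.2.2
  -- step 3
  have h3 : ∃ w, w ≠ x ∧ ∀ E, f E → x ∉ E → (∀ v ∈ kx, v ∉ E) → w ∈ E := by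
    by_contra hcon
    push Not at hcon
    set U : Finset V := (insert x kx)ᶜ with hU
    have hmU : ∀ E, x ∉ E → (∀ v ∈ kx, v ∉ E) → E ⊆ U := by
      intro E h1 h2 e he
      rw [hU, Finset.mem_compl, Finset.mem_insert]
      rintro (rfl | h')
      · exact h1 he
      · exact h2 e h' he
    have hfU : f U := by
      refine h.mono Y₀ _ (hmU Y₀ hY₀.2.2.2.1 fun v hv hvY => ?_) hY₀.1
      exact (Finset.disjoint_left.1 (c.disj h hX₀ hY₀)) (hkxX X₀ hX₀ v hv) hvY
    have hxU : x ∉ U := by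
      rw [hU, Finset.mem_compl, not_not]
      exact Finset.mem_insert_self _ _
    obtain ⟨Y, Z, hY, hZ, hxZ, hyZ, haZ, hd, hYU, hZU⟩ := c.two h hxU hfU (by
      intro v hv
      have hvx : v ≠ x := fun h' => hxU (h' ▸ hv)
      obtain ⟨E, hE, h1, h2, h4⟩ := hcon v hvx
      refine h.mono E _ ?_ hE
      rw [Finset.subset_erase]
      exact ⟨hmU E h1 h2, h4⟩)
    obtain ⟨v, -, hvZ, hvx, hkv⟩ := c.kp h hY hZ hxZ hd
    have h5 : v ∈ kx := Finset.mem_filter.2 ⟨Finset.mem_univ _, hvx, hkv⟩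
    have h6 := hZU hvZ
    rw [hU, Finset.mem_compl] at h6
    exact h6 (Finset.mem_insert_of_mem h5)
  obtain ⟨w, hwx, hw⟩ := h3
  have hZ₁k : ∀ v ∈ kx, v ∉ Z₁ := fun v hv h' =>
    (Finset.disjoint_left.1 hd₁) (hkxX X₀ hX₀ v hv) h'
  have hwZ₁ : w ∈ Z₁ := hw Z₁ hZ₁ hxZ₁ hZ₁k
  have hwy : w ≠ y := fun h' => hyZ₁ (h' ▸ hwZ₁)
  have hwY : ∀ Y, MS f y x a Y → w ∈ Y := by
    intro Y hY
    refine hw Y hY.1 hY.2.2.2.1 fun v hv hvY => ?_
    exact (Finset.disjoint_left.1 (c.disj h hX₀ hY)) (hkxX X₀ hX₀ v hv) hvY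
  have hwa : w ≠ a := fun h' => hY₀.2.2.2.2 (h' ▸ hwY Y₀ hY₀)
  have hwE : ∀ E, f E → x ∉ E → a ∉ E → w ∈ E := by
    intro E hE hxE haE
    obtain ⟨Y, hYE, hY⟩ := c.symm.exMS hE hxE haE
    exact hYE (hwY Y hY)
  -- step 4
  have h4 : ∃ p, p ≠ y ∧ p ≠ w ∧ ∀ E, f E → y ∉ E → w ∉ E → p ∈ E := by
    by_contra hcon
    push Not at hcon
    set U : Finset V := (insert y ({w} : Finset V))ᶜ with hU
    have hmU : ∀ E, y ∉ E → w ∉ E → E ⊆ U := by
      intro E h1 h2 e he
      rw [hU, Finset.mem_compl, Finset.mem_insert, Finset.mem_singleton]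
      rintro (rfl | rfl)
      · exact h1 he
      · exact h2 he
    have hfU : f U := by
      obtain ⟨E, hE, h1, h2⟩ := c.nc y w
      exact h.mono E _ (hmU E h1 h2) hE
    have hyU : y ∉ U := by
      rw [hU, Finset.mem_compl, not_not]
      exact Finset.mem_insert_self _ _
    have hwU : w ∉ U := by
      rw [hU, Finset.mem_compl, not_not]
      exact Finset.mem_insert_of_mem (Finset.mem_singleton_self _)
    obtain ⟨X, Z, hX, hZ, hyZ, hxZ, haZ, hd, hXU, hZU⟩ := c.symm.two h hyU hfU (by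
      intro v hv
      have hvy : v ≠ y := fun h' => hyU (h' ▸ hv)
      have hvw : v ≠ w := fun h' => hwU (h' ▸ hv)
      obtain ⟨E, hE, h1, h2, h4⟩ := hcon v hvy hvw
      refine h.mono E _ ?_ hE
      rw [Finset.subset_erase]
      exact ⟨hmU E h1 h2, h4⟩)
    refine hwU (hZU (hw Z hZ hxZ fun v hv h' => ?_))
    exact (Finset.disjoint_left.1 hd) (hkxX X hX v hv) h'
  obtain ⟨p, hpy, hpw, hp⟩ := h4
  have hwZ₀ : w ∉ Z₀ := fun h' => (Finset.disjoint_left.1 hd₀) (hwY Y₀ hY₀) h'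
  have hpx : p ≠ x := fun h' => hxZ₀ (h' ▸ hp Z₀ hZ₀ hyZ₀ hwZ₀)
  have hpX : ∀ X, MS f x y a X → p ∈ X := by
    intro X hX
    refine hp X hX.1 hX.2.2.2.1 fun h' => ?_
    exact (Finset.disjoint_left.1 (c.disj h hX hY₀)) h' (hwY Y₀ hY₀)
  have hpa : p ≠ a := fun h' => hX₀.2.2.2.2 (h' ▸ hpX X₀ hX₀)
  have hpE : ∀ E, f E → y ∉ E → a ∉ E → p ∈ E := by
    intro E hE hyE haE
    obtain ⟨X, hXE, hX⟩ := c.exMS hE hyE haE
    exact hXE (hpX X hX)
  -- the certificate
  refine ⟨{x, y, a, p, w}, ?_, ?_⟩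
  · have h1 := c.xy
    have h2 := c.ax
    have h3 := c.ay
    rw [Finset.card_insert_of_notMem, Finset.card_insert_of_notMem, Finset.card_insert_of_notMem,
      Finset.card_insert_of_notMem, Finset.card_singleton]
    · simpa using hpw
    · simp only [Finset.mem_insert, Finset.mem_singleton, not_or]
      exact ⟨hpa.symm, hwa.symm⟩
    · simp only [Finset.mem_insert, Finset.mem_singleton, not_or]
      exact ⟨h3.symm, hpy.symm, hwy.symm⟩
    · simp only [Finset.mem_insert, Finset.mem_singleton, not_or]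
      exact ⟨h1, h2.symm, hpx.symm, hwx.symm⟩
  · intro E hE
    have htwo : ∀ u v : V, u ≠ v → u ∈ E → v ∈ E → u ∈ ({x, y, a, p, w} : Finset V) →
        v ∈ ({x, y, a, p, w} : Finset V) → 2 ≤ (E ∩ {x, y, a, p, w}).card := by
      intro u v huv hu hv hu' hv'
      have : 1 < (E ∩ {x, y, a, p, w}).card := by
        rw [Finset.one_lt_card]
        exact ⟨u, Finset.mem_inter.2 ⟨hu, hu'⟩, v, Finset.mem_inter.2 ⟨hv, hv'⟩, huv⟩
      exact this
    by_cases hxE : x ∈ E
    · by_cases hyE : y ∈ E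
      · exact htwo x y c.xy hxE hyE (by simp) (by simp)
      by_cases haE : a ∈ E
      · exact htwo x a c.ax.symm hxE haE (by simp) (by simp)
      · exact htwo x p hpx.symm hxE (hpE E hE hyE haE) (by simp) (by simp)
    · by_cases haE : a ∈ E
      · by_cases hyE : y ∈ E
        · exact htwo a y c.ay haE hyE (by simp) (by simp)
        by_cases hwE' : w ∈ E
        · exact htwo a w hwa.symm haE hwE' (by simp) (by simp)
        · exact htwo a p hpa.symm haE (hp E hE hyE hwE') (by simp) (by simp)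
      · have hyE : y ∈ E := by
          by_contra hyE
          exact haE (c.ker E hE hxE hyE)
        exact htwo y w hwy.symm hyE (hwE E hE hxE haE) (by simp) (by simp)

/-- THEOREM (certificate). -/
theorem cert (h : LF f) [Fintype V] (S : Finset V) (hS : f S) (hc : S.card ≤ 2) :
    (∃ W : Finset V, W.card ≤ 2 ∧ ∀ E, f E → (E ∩ W).Nonempty) ∨
      ∃ W : Finset V, W.card = 5 ∧ ∀ E, f E → 2 ≤ (E ∩ W).card := by
  classical
  by_contra hcon
  rw [not_or] at hcon
  obtain ⟨hc1, hc2⟩ := hcon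
  have hnc : ∀ u v : V, ∃ E, f E ∧ u ∉ E ∧ v ∉ E := by
    intro u v
    by_contra hcon
    push Not at hcon
    refine hc1 ⟨{u, v}, Finset.card_le_two, fun E hE => ?_⟩
    by_cases hu : u ∈ E
    · exact ⟨u, Finset.mem_inter.2 ⟨hu, by simp⟩⟩
    · exact ⟨v, Finset.mem_inter.2 ⟨hcon E hE hu, by simp⟩⟩
  have hpair : ∃ x y : V, x ≠ y ∧ f {x, y} := by
    have hS0 : S ≠ ∅ := fun h' => h.bot (h' ▸ hS)
    have hcases : S.card = 1 ∨ S.card = 2 := by
      have : 0 < S.card := Finset.card_pos.2 (Finset.nonempty_iff_ne_empty.2 hS0)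
      omega
    rcases hcases with h1 | h2
    · obtain ⟨x, rfl⟩ := Finset.card_eq_one.1 h1
      obtain ⟨E, hE, hxE, -⟩ := hnc x x
      have : E ≠ ∅ := fun h' => h.bot (h' ▸ hE)
      obtain ⟨y, hy⟩ := Finset.nonempty_iff_ne_empty.2 this
      refine ⟨x, y, fun h' => hxE (h' ▸ hy), h.mono _ _ ?_ hS⟩
      intro u hu
      rw [Finset.mem_singleton] at hu
      rw [hu]
      exact Finset.mem_insert_self _ _
    · obtain ⟨x, y, hxy, rfl⟩ := Finset.card_eq_two.1 h2
      exact ⟨x, y, hxy, hS⟩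
  obtain ⟨x, y, hxy, hl⟩ := hpair
  have hco : f ({x, y} : Finset V)ᶜ := by
    obtain ⟨E, hE, h1, h2⟩ := hnc x y
    refine h.mono E _ (fun e he => ?_) hE
    rw [Finset.mem_compl, Finset.mem_insert, Finset.mem_singleton]
    rintro (rfl | rfl)
    · exact h1 he
    · exact h2 he
  obtain ⟨a, ha, hker⟩ := h.ker hl hco
  rw [Finset.mem_insert, Finset.mem_singleton, not_or] at ha
  have c : Cfg f x y a := by
    refine ⟨hxy, ha.1, ha.2, hl, fun E hE h1 h2 => hker E hE ?_, hnc⟩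
    rw [Finset.disjoint_right]
    intro u hu
    rw [Finset.mem_insert, Finset.mem_singleton] at hu
    rcases hu with rfl | rfl
    · exact h1
    · exact h2
  exact hc2 (c.main h)

end Pool.Agent.TPair
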